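import Pool.Agent.Y517.NT.Sys

/-! Job NT-ZONE: the differential of `g` vanishes almost everywhere over `{g ∈ A}`. -/

set_option autoImplicit false

open Set Filter Topology MeasureTheory
open scoped ContDiff

namespace Pool.Agent.Y195.NT

open Pool.Agent.Y517.NT

theorem t_ZONE (h1 : S_ONE) (h2 : S_EXT) : S_ZONE := by
  intro X K _ _ _ _ _ _ _ _ s μ _ hCl A hA hA0 g hg
  obtain ⟨n, b, h, hb, hh, hrot⟩ := s.rot g hg
  set B : Set K := {z | g (s.p z) ∈ A} with hBdef
  have hB : MeasurableSet B := ((s.S_cont g hg).comp s.p_cont).measurable hA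
  have hint : ∀ φ : K → ℝ, Continuous φ → Integrable φ μ := fun φ hφ =>
    hφ.integrable_of_hasCompactSupport (HasCompactSupport.of_compactSpace φ)
  have hbr : ∀ k, Continuous (s.br g (h k)) := by
    intro k
    have c1 := s.D_cont g hg
    have c2 := s.D'_cont g hg
    have c3 := s.D_cont (h k) (hh k)
    have c4 := s.D'_cont (h k) (hh k)
    exact (c1.mul c4).sub (c2.mul c3)
  have e : ∀ (φ : K → ℝ) (k : Fin n), ∫ z, φ z * B.indicator (s.br g (h k)) z ∂μ =
      ∫ z in B, φ z * s.br g (h k) z ∂μ := by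
    intro φ k
    rw [← integral_indicator hB]
    congr 1
    funext z
    by_cases hz : z ∈ B
    · rw [indicator_of_mem hz, indicator_of_mem hz]
    · rw [indicator_of_notMem hz, indicator_of_notMem hz, mul_zero]
  have hk : ∀ k, ∫ z in B, b k (s.p z) * s.br g (h k) z ∂μ = 0 := by
    intro k
    have := (h2 X K s μ (B.indicator (s.br g (h k))) ((hint _ (hbr k)).indicator hB)
      (fun χ hχ => by
        rw [e (fun z => χ (s.p z)) k]
        exact h1 X K s μ hCl A hA hA0 χ hχ g hg (h k) (hh k)) (b k) (hb k)).1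
    rwa [e (fun z => b k (s.p z)) k] at this
  have hbc : ∀ k, Continuous fun z => b k (s.p z) * s.br g (h k) z := fun k =>
    ((hb k).comp s.p_cont).mul (hbr k)
  have hpt : ∀ z, (s.D g z) ^ 2 + (s.D' g z) ^ 2 = - ∑ k, b k (s.p z) * s.br g (h k) z := by
    intro z
    obtain ⟨r1, r2⟩ := hrot z
    have e1 : ∑ k, b k (s.p z) * s.br g (h k) z =
        s.D g z * ∑ k, b k (s.p z) * s.D' (h k) z -
          s.D' g z * ∑ k, b k (s.p z) * s.D (h k) z := by
      rw [Finset.mul_sum, Finset.mul_sum, ← Finset.sum_sub_distrib]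
      refine Finset.sum_congr rfl fun k _ => ?_
      unfold Sys.br
      ring
    rw [e1, ← r1]
    have e2 : ∑ k, b k (s.p z) * s.D' (h k) z = - s.D g z := by rw [r2, neg_neg]
    rw [e2]
    ring
  have hzero : ∫ z in B, ((s.D g z) ^ 2 + (s.D' g z) ^ 2) ∂μ = 0 := by
    have e1 : (fun z => (s.D g z) ^ 2 + (s.D' g z) ^ 2) =
        fun z => - ∑ k, b k (s.p z) * s.br g (h k) z := funext hpt
    rw [e1, integral_neg, integral_finset_sum _ fun k _ => (hint _ (hbc k)).integrableOn]
    rw [Finset.sum_eq_zero fun k _ => hk k, neg_zero]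
  have hcont : Continuous fun z => (s.D g z) ^ 2 + (s.D' g z) ^ 2 :=
    ((s.D_cont g hg).pow 2).add ((s.D'_cont g hg).pow 2)
  have hae := (setIntegral_eq_zero_iff_of_nonneg_ae
    (Eventually.of_forall fun z => by positivity) (hint _ hcont).integrableOn).1 hzero
  have h3 : μ ({z | ¬ ((s.D g z) ^ 2 + (s.D' g z) ^ 2 = (0 : K → ℝ) z)} ∩ B) = 0 := by
    rw [← Measure.restrict_apply' hB]
    exact hae
  refine measure_mono_null ?_ h3
  rintro z ⟨hz, hne⟩
  refine ⟨?_, hz⟩
  intro h0
  have h0' : (s.D g z) ^ 2 + (s.D' g z) ^ 2 = 0 := h0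
  have p1 := sq_nonneg (s.D g z)
  have p2 := sq_nonneg (s.D' g z)
  rcases hne with hne | hne
  · exact hne (pow_eq_zero_iff two_ne_zero |>.1 (by linarith))
  · exact hne (pow_eq_zero_iff two_ne_zero |>.1 (by linarith))

end Pool.Agent.Y195.NT
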